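import Pool.Agent.KS6_51.BW.R2
import Pool.Graph.R_pool_sql_team_seeded_47a924f7.T6.H60.BD.F
import Pool.Graph.R_pool_sql_team_seeded_47a924f7.T6.H79.BZ5.Main5

/-!
# The exact size of the set of weights for which the moment bounds for the Barnes multiple zeta-function fail

Q1 asks whether `I_k(σ, T) = O(T^(1+ε))` for all weights `w`, all `k` and all `σ ≥ r - d/2`, where `d` is the
dimension of the weights. It is false. We determine the size of the set of all weights for which it is false, for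
`k = 1` (and for `k = 2` and almost all shifts), for all `r`, all dimensions `d` and all `σ`: for `2 ≤ d ≤ r` and
`r - d/2 ≤ σ < r - 1/2` the set of the positive weights of dimension `d` for which the bound fails has Hausdorff
dimension exactly `d + 1 - d / (2 (r - σ))`, and its Hausdorff measure in this dimension is zero. So it has full
dimension `d` and `d`-dimensional measure zero on the critical line `σ = r - d/2`, the dimension decreases to `1` as `σ` increases to `r - 1/2`, and for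
`σ ≥ r - 1/2` the set is empty. The set is generic (residual) in every rational family of weights. For the weights
in the set the bound fails for all `k` and all shifts at the same time.

More generally we determine the spectrum of the growth exponents: for `β ≥ 1` and `σ ≥ max (1/2, r - d)` the set of
the weights of dimension `d` for which `I_1(σ, T)` is not `O(T^(β+ε))` has the dimension `d + 1 - d β / (2 (r - σ))`
if `2 (r - σ) / d ≤ β < 2 (r - σ)`, is empty for `β ≥ 2 (r - σ)`, and contains all weights for `β < 2 (r - σ) / d`.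

Proof idea. The mean square bound is equivalent to `∏ max(δ, ‖w_j y‖)^(-2) ≪ δ^(-2σ) (y/δ)^(β+ε)` for all `y ≥ 1` and
`0 < δ ≤ 1` (pointwise criterion, from the library). Upper bound for the dimension: the weights are rational
combinations of `d` of them, and the criterion for these `d` weights with `σ - (r - d)` implies the criterion for `w`.
The points `v` of a cube in `ℝ^d` with a bad pair `(y, δ)`, `y ≍ 2^k`, `δ ≍ 2^(-a)`, are covered by the sets of those
`v` for which `y` and all the `v_j y` are in given intervals of length `2^(-a)`; if `v_j y` is in the interval with the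
distance `c_j 2^(-a)` from an integer then `∏ (1 + |c_j|)^2 ≤ 2^(a E - k (β+ε))` with `E = 2 (r - σ) - β - ε`; Rankin's
method gives the convergence of the `s`-dimensional sum for `s - 1 > d E / (2 (r - σ))`. Lower bound: if the parameters
are simultaneously approximable with an exponent `τ > β / (2 (r - σ) - β)` then the criterion fails with `δ = y^(-τ)`.
A mass transference principle for balls in `ℝ^(d-1)` (for contents, with countably many open sets of full content, so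
that rational hyperplanes can be avoided) and Dirichlet's theorem give the dimension of such sections, and an
integration over the sections gives the dimension of the cone.
-/

set_option autoImplicit false

open Filter Topology Asymptotics MeasureTheory

namespace Pool.Agent.Results.MP_047497_nt.ExceptionalWeights

/-- The Dirichlet series `∑ (a + m₁ w₁ + ⋯ + m_r w_r)^{-s}` over `m ∈ ℕ^r` (with `0 ∈ ℕ`). -/
noncomputable def barnesSeries (r : ℕ) (a : ℝ) (w : Fin r → ℝ) (s : ℂ) : ℂ :=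
  ∑' m : Fin r → ℕ, ((a + ∑ i, (m i : ℝ) * w i : ℝ) : ℂ) ^ (-s)

/-- `Z` is the Barnes multiple zeta-function `ζ_r(·; a, w)`: it is holomorphic on the complex plane
except for possible simple poles at `1, …, r`, and for `Re s > r` it is given by the (summable)
Dirichlet series. -/
structure IsBarnesZeta (r : ℕ) (a : ℝ) (w : Fin r → ℝ) (Z : ℂ → ℂ) : Prop where
  holomorphic : ∀ s : ℂ, (∀ j : ℕ, 1 ≤ j → j ≤ r → s ≠ j) → DifferentiableAt ℂ Z s
  simple_pole : ∀ j : ℕ, 1 ≤ j → j ≤ r →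
    ∃ c : ℂ, Tendsto (fun s : ℂ => (s - j) * Z s) (𝓝[≠] (j : ℂ)) (𝓝 c)
  summable : ∀ s : ℂ, (r : ℝ) < s.re →
    Summable fun m : Fin r → ℕ => ((a + ∑ i, (m i : ℝ) * w i : ℝ) : ℂ) ^ (-s)
  series : ∀ s : ℂ, (r : ℝ) < s.re → Z s = barnesSeries r a w s

/-- The dimension `d` of the `ℚ`-vector space spanned by the weights. -/
noncomputable def weightDim (r : ℕ) (w : Fin r → ℝ) : ℕ :=
  Module.finrank ℚ (Submodule.span ℚ (Set.range w))

/-- The moment `∫_1^T |Z(σ + i t)|^{2k} dt`. -/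
noncomputable def moment (Z : ℂ → ℂ) (k : ℕ) (σ T : ℝ) : ℝ :=
  ∫ t in (1 : ℝ)..T, ‖Z (σ + t * Complex.I)‖ ^ (2 * k)

/-- The bound `I_k(σ, T) = O(T^(β+ε))` for every `ε > 0`. The question is about `β = 1`. -/
def MomentBound (Z : ℂ → ℂ) (k : ℕ) (σ β : ℝ) : Prop :=
  ∀ ε : ℝ, 0 < ε → (fun T : ℝ => moment Z k σ T) =O[atTop] fun T : ℝ => T ^ (β + ε)

/-- All bounds fail: for every shift `a > 0` and every `k ≥ 1` it is not true that
`I_k(σ, T) = O(T^(1+k(β-1)+ε))` for all `ε > 0`. For `β = 1` this is the bound of the question. -/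
def AllFail (r : ℕ) (w : Fin r → ℝ) (σ β : ℝ) : Prop :=
  ∀ (a : ℝ) (Z : ℂ → ℂ), 0 < a → IsBarnesZeta r a w Z → ∀ k : ℕ, 1 ≤ k →
    ¬ MomentBound Z k σ (1 + k * (β - 1))

/-- The bounds hold for the mean square and all shifts, and for the fourth moment and almost all shifts:
`I_1(σ, T) = O(T^(β+ε))` for all `a > 0`, and `I_2(σ, T) = O(T^(1+2(β-1)+ε))` for almost all `a > 0`. -/
def Holds (r : ℕ) (w : Fin r → ℝ) (σ β : ℝ) : Prop :=
  (∀ (a : ℝ) (Z : ℂ → ℂ), 0 < a → IsBarnesZeta r a w Z → MomentBound Z 1 σ β) ∧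
  ∀ᵐ a : ℝ, 0 < a → ∀ Z : ℂ → ℂ, IsBarnesZeta r a w Z → MomentBound Z 2 σ (1 + 2 * (β - 1))

/-- The exceptional weights: the positive weights of dimension `d` for which all bounds fail. -/
def Exceptional (r d : ℕ) (σ β : ℝ) : Set (Fin r → ℝ) :=
  {w | (∀ i, 0 < w i) ∧ weightDim r w = d ∧ AllFail r w σ β}

/-- The weights `w = B v` of the rational family with the matrix `B` and the parameters `v`. -/
def family {r d : ℕ} (B : Matrix (Fin r) (Fin d) ℚ) (v : Fin d → ℝ) : Fin r → ℝ :=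
  fun i => ∑ j, (B i j : ℝ) * v j

theorem exists_zeta (r : ℕ) (a : ℝ) (w : Fin r → ℝ) (ha : 0 < a) (hw : ∀ i, 0 < w i) :
    ∃ Z : ℂ → ℂ, IsBarnesZeta r a w Z := by
  obtain ⟨c, hc⟩ := Pool.Agent.H131R5.BZ.exists_taylor a hw
  refine ⟨Pool.Agent.H131R5.BZ.FF a w c, ?_, ?_, ?_, ?_⟩
  · exact fun s hs => Pool.Agent.H131R5.BZ.FF_diff ha hw hc hs
  · exact fun j h1 h2 => Pool.Agent.Y930.Bz.FF_pole ha hw hc j h1 h2
  · exact fun s hs => (Pool.Agent.H131R5.BZ.FF_series ha hw hc hs).summable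
  · exact fun s hs => (Pool.Agent.H131R5.BZ.FF_series ha hw hc hs).tsum_eq.symm

/-- the mean square bound and the pointwise criterion -/
theorem one_iff {r : ℕ} {a : ℝ} {w : Fin r → ℝ} (ha : 0 < a) (hw : ∀ i, 0 < w i) {Z : ℂ → ℂ}
    (hZ : IsBarnesZeta r a w Z) {σ β : ℝ} (hσ : 1 / 2 ≤ σ) (hβ : 1 ≤ β) :
    MomentBound Z 1 σ β ↔ Pool.Agent.T6.H60.BD.PtB w σ β := by
  obtain ⟨c, hc⟩ := Pool.Agent.H131R5.BZ.exists_taylor a hw
  have e1 := Pool.Agent.T6.H60.BD.mom_bigO_iff ha hw hc hZ.holomorphic hZ.series σ hβ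
  have e2 := Pool.Agent.T6.H60.BD.mom_iff ha hw hc hσ hβ
  have e3 := Pool.Agent.T6.H60.BD.crit_pt_iff hw hσ hβ
  exact e1.trans (e2.trans e3)

/-- the necessary condition -/
theorem pt_of_moment {r : ℕ} {a : ℝ} {w : Fin r → ℝ} (ha : 0 < a) (hw : ∀ i, 0 < w i)
    {Z : ℂ → ℂ} (hZ : IsBarnesZeta r a w Z) {k : ℕ} (hk : 1 ≤ k) {σ β : ℝ} (hσ : 1 / 2 ≤ σ)
    (hβ : 1 ≤ β) (h : MomentBound Z k σ (1 + k * (β - 1))) : Pool.Agent.T6.H60.BD.PtB w σ β := by
  refine (one_iff ha hw hZ hσ hβ).1 fun ε hε => ?_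
  have hk0 : (0 : ℝ) < k := by exact_mod_cast hk
  have h1 := h (k * ε) (by positivity)
  have e : 1 + (k : ℝ) * (β - 1) + k * ε = k * β - k + 1 + k * ε := by ring
  rw [e] at h1
  exact Pool.Agent.T6.H79.BZ5.mom_one_of_mom' hZ.holomorphic hk h1

/-- from the continuation to an arbitrary function as in `IsBarnesZeta` -/
theorem moment_of_FF {r : ℕ} {a : ℝ} {w : Fin r → ℝ} (ha : 0 < a) (hw : ∀ i, 0 < w i)
    {c : ℕ → ℂ} (hc : Pool.Agent.Y930.Bz.Tay a w c) {Z : ℂ → ℂ} (hZ : IsBarnesZeta r a w Z)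
    {k : ℕ} {σ τ C : ℝ} (hC : 0 ≤ C)
    (hb : ∀ T : ℝ, 1 ≤ T → ∫⁻ t in Set.Icc 1 T,
      ‖Pool.Agent.H131R5.BZ.FF a w c ((σ : ℂ) + (t : ℂ) * Complex.I)‖ₑ ^ (2 * k) ≤
      ENNReal.ofReal (C * T ^ τ)) :
    (fun T : ℝ => moment Z k σ T) =O[atTop] fun T : ℝ => T ^ τ := by
  have hZF : ∀ t : ℝ, 1 ≤ t → Z ((σ : ℂ) + t * Complex.I) =
      Pool.Agent.H131R5.BZ.FF a w c ((σ : ℂ) + t * Complex.I) := fun t ht =>
    Pool.Agent.T6.H60.BD.ZF ha hw hc hZ.holomorphic hZ.series σ ht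
  refine IsBigO.of_bound C (eventually_atTop.2 ⟨1, fun T hT => ?_⟩)
  have h1 : ‖moment Z k σ T‖ ≤ (∫⁻ t in Set.Icc 1 T,
      ‖Pool.Agent.H131R5.BZ.FF a w c ((σ : ℂ) + t * Complex.I)‖ₑ ^ (2 * k)).toReal := by
    unfold moment
    rw [intervalIntegral.integral_of_le hT]
    refine (norm_integral_le_lintegral_norm _).trans ?_
    apply ENNReal.toReal_mono
    · exact ne_top_of_le_ne_top ENNReal.ofReal_ne_top (hb T hT)
    · refine (lintegral_mono_set Set.Ioc_subset_Icc_self).trans ?_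
      refine setLIntegral_mono' measurableSet_Icc fun t ht => ?_
      rw [← hZF t ht.1, norm_pow, norm_norm, ENNReal.ofReal_pow (norm_nonneg _), ofReal_norm]
  have hT0 : 0 ≤ T := by linarith
  have h2 : (∫⁻ t in Set.Icc 1 T,
      ‖Pool.Agent.H131R5.BZ.FF a w c ((σ : ℂ) + t * Complex.I)‖ₑ ^ (2 * k)).toReal ≤
      C * T ^ τ := by
    refine ENNReal.toReal_le_of_le_ofReal (by positivity) (hb T hT)
  rw [Real.norm_of_nonneg (show 0 ≤ T ^ τ by positivity)]
  exact h1.trans h2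

/-- the criterion implies the bounds -/
theorem holds_of_pt {r : ℕ} (hr : 1 ≤ r) {w : Fin r → ℝ} (hw : ∀ i, 0 < w i) {σ β : ℝ} (hσ : 1 / 2 ≤ σ)
    (hβ : 1 ≤ β) (h : Pool.Agent.T6.H60.BD.PtB w σ β) : Holds r w σ β := by
  refine ⟨fun a Z ha hZ => (one_iff ha hw hZ hσ hβ).2 h, ?_⟩
  filter_upwards [Pool.Agent.T6.H79.BZ5.ae_moments5 hr hw] with a ha ha0 Z hZ ε hε
  obtain ⟨c, hc⟩ := Pool.Agent.H131R5.BZ.exists_taylor a hw
  obtain ⟨C, hC, hb⟩ := ha ha0 c hc σ β hσ hβ h 2 σ ε le_rfl le_rfl (by push_cast; exact le_rfl)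
    (Or.inr rfl) hε
  have e : 1 + 2 * (β - 1) + ε = 2 * β - 1 + ε := by ring
  rw [e]
  exact moment_of_FF ha0 hw hc hZ hC hb

/-- the exceptional weights in terms of the pointwise criterion -/
theorem fail_iff {r : ℕ} {w : Fin r → ℝ} (hw : ∀ i, 0 < w i) {σ β : ℝ} (hσ : 1 / 2 ≤ σ) (hβ : 1 ≤ β) :
    AllFail r w σ β ↔ ¬ Pool.Agent.T6.H60.BD.PtB w σ β := by
  constructor
  · intro h hpt
    obtain ⟨Z, hZ⟩ := exists_zeta r 1 w one_pos hw
    refine h 1 Z one_pos hZ 1 le_rfl ?_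
    have e : 1 + ((1 : ℕ) : ℝ) * (β - 1) = β := by
      push_cast
      ring
    rw [e]
    exact (one_iff one_pos hw hZ hσ hβ).2 hpt
  · intro h a Z ha hZ k hk hM
    exact h (pt_of_moment ha hw hZ hk hσ hβ hM)

theorem exceptional_eq {r d : ℕ} {σ β : ℝ} (hσ : 1 / 2 ≤ σ) (hβ : 1 ≤ β) :
    Exceptional r d σ β = Pool.Agent.KS6_51.BW.XP r d σ β := by
  ext w
  constructor
  · rintro ⟨h1, h2, h3⟩
    exact ⟨h1, h2, (fail_iff h1 hσ hβ).1 h3⟩
  · rintro ⟨h1, h2, h3⟩
    exact ⟨h1, h2, (fail_iff h1 hσ hβ).2 h3⟩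

/-- the exact dimension in a rational family, in an open set -/
theorem dim_family {r d : ℕ} {σ β : ℝ} (hσ : 1 / 2 ≤ σ) (hβ : 1 ≤ β) (h1 : β < 2 * ((r : ℝ) - σ))
    (h2 : 2 * ((r : ℝ) - σ) ≤ d * β) (h3 : (r : ℝ) - d ≤ σ) (B : Matrix (Fin r) (Fin d) ℚ)
    (hB : Function.Injective B.mulVec) (U : Set (Fin r → ℝ)) (hU : IsOpen U)
    (hne : ∃ v : Fin d → ℝ, family B v ∈ U ∧ ∀ i, 0 < family B v i) :
    dimH (Exceptional r d σ β ∩ Set.range (family B) ∩ U) =
      ENNReal.ofReal (d + 1 - d * β / (2 * (r - σ))) := by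
  rw [exceptional_eq hσ hβ]
  apply le_antisymm
  · refine (dimH_mono ?_).trans (Pool.Agent.KS6_51.BW.XP_upper (by linarith) h3 h1 h2)
    exact fun w hw => hw.1.1
  · exact Pool.Agent.KS6_51.BW.XP_lower (by linarith) h1 h2 B hB U hU hne

/-- the exact dimension in an open set -/
theorem dim_open {r d : ℕ} (hd : 1 ≤ d) (hdr : d ≤ r) {σ β : ℝ} (hσ : 1 / 2 ≤ σ) (hβ : 1 ≤ β)
    (h1 : β < 2 * ((r : ℝ) - σ)) (h2 : 2 * ((r : ℝ) - σ) ≤ d * β) (h3 : (r : ℝ) - d ≤ σ)
    (U : Set (Fin r → ℝ)) (hU : IsOpen U) (hne : ∃ w ∈ U, ∀ i, 0 < w i) :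
    dimH (Exceptional r d σ β ∩ U) = ENNReal.ofReal (d + 1 - d * β / (2 * (r - σ))) := by
  apply le_antisymm
  · rw [exceptional_eq hσ hβ]
    refine (dimH_mono ?_).trans (Pool.Agent.KS6_51.BW.XP_upper (by linarith) h3 h1 h2)
    exact fun w hw => hw.1
  · obtain ⟨b, hb1, hb2⟩ := Pool.Agent.KS6_51.BW.exists_rat_pt U hU hne
    obtain ⟨B, hB, v, hv⟩ := Pool.Agent.KS6_51.BW.exists_family hd hdr b (fun j => (hb2 j).ne')
    have hv' : family B v = fun j => (b j : ℝ) := hv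
    have hpos : ∀ i, (0 : ℝ) < (b i : ℝ) := fun i => by exact_mod_cast hb2 i
    have h4 := dim_family hσ hβ h1 h2 h3 B hB U hU ⟨v, by rw [hv']; exact hb1, fun i => by
      rw [hv']
      exact hpos i⟩
    rw [← h4]
    exact dimH_mono fun w hw => ⟨hw.1.1, hw.2⟩

/-- (1) The Barnes multiple zeta-function exists (as defined above) for all `r`, `a > 0` and positive weights.
(2) For all positive weights, all `σ ≥ 1/2` and all `β ≥ 1`: either all bounds fail, or the bounds hold for the mean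
square and all shifts, and for the fourth moment and almost all shifts.
(3) Let `1 ≤ d ≤ r`, `σ ≥ 1/2` and `β ≥ 1` (`β = 1` is the case of the question).
(a) If `β < 2 (r - σ) / d` then all positive weights of dimension `d` are exceptional.
(b) If `2 (r - σ) / d ≤ β < 2 (r - σ)` and `σ ≥ r - d` (this holds if `β ≤ 2`), then the set of the exceptional weights
has Hausdorff dimension `d + 1 - d β / (2 (r - σ))`, in every open set which contains positive weights, and in every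
rational family of dimension `d` in every open set which contains positive weights of the family; and its Hausdorff
measure in this dimension is `0` (so its `d`-dimensional measure is `0`).
(c) If `β < 2 (r - σ)` then the exceptional weights are generic (residual) in every rational family of dimension `d`.
(d) If `β ≥ 2 (r - σ)` then there are no exceptional weights.
(4) For `2 ≤ d ≤ r` and `r - d/2 ≤ σ < r - 1/2` the set of the exceptional weights for `β = 1` has Hausdorff dimension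
`d + 1 - d / (2 (r - σ))`, which is `d` for `σ = r - d/2`. So the answer to the question is negative. -/
theorem result :
    (∀ (r : ℕ) (a : ℝ) (w : Fin r → ℝ), 0 < a → (∀ i, 0 < w i) →
      ∃ Z : ℂ → ℂ, IsBarnesZeta r a w Z) ∧
    (∀ (r : ℕ) (w : Fin r → ℝ), 1 ≤ r → (∀ i, 0 < w i) → ∀ σ β : ℝ, 1 / 2 ≤ σ → 1 ≤ β →
      (AllFail r w σ β ∨ Holds r w σ β)) ∧
    (∀ r d : ℕ, 1 ≤ d → d ≤ r → ∀ σ β : ℝ, 1 / 2 ≤ σ → 1 ≤ β →
      (d * β < 2 * (r - σ) → Exceptional r d σ β = {w | (∀ i, 0 < w i) ∧ weightDim r w = d}) ∧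
      (β < 2 * (r - σ) → 2 * (r - σ) ≤ d * β → r - d ≤ σ →
        (∀ U : Set (Fin r → ℝ), IsOpen U → (∃ w ∈ U, ∀ i, 0 < w i) →
          dimH (Exceptional r d σ β ∩ U) = ENNReal.ofReal (d + 1 - d * β / (2 * (r - σ)))) ∧
        (∀ B : Matrix (Fin r) (Fin d) ℚ, Function.Injective B.mulVec → ∀ U : Set (Fin r → ℝ), IsOpen U →
          (∃ v : Fin d → ℝ, family B v ∈ U ∧ ∀ i, 0 < family B v i) →
          dimH (Exceptional r d σ β ∩ Set.range (family B) ∩ U) =
            ENNReal.ofReal (d + 1 - d * β / (2 * (r - σ)))) ∧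
        Measure.hausdorffMeasure (d + 1 - d * β / (2 * (r - σ))) (Exceptional r d σ β) = 0) ∧
      (β < 2 * (r - σ) → ∀ B : Matrix (Fin r) (Fin d) ℚ, Function.Injective B.mulVec →
        ∀ᶠ v in residual (Fin d → ℝ), (∀ i, 0 < family B v i) → family B v ∈ Exceptional r d σ β) ∧
      (2 * (r - σ) ≤ β → Exceptional r d σ β = ∅)) ∧
    (∀ r d : ℕ, 2 ≤ d → d ≤ r → ∀ σ : ℝ, (r : ℝ) - d / 2 ≤ σ → σ < r - 1 / 2 →
      dimH (Exceptional r d σ 1) = ENNReal.ofReal (d + 1 - d / (2 * (r - σ))) ∧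
      (σ = r - d / 2 → dimH (Exceptional r d σ 1) = d)) ∧
    ¬ (∀ (r : ℕ) (a : ℝ) (w : Fin r → ℝ), 1 ≤ r → 0 < a → (∀ i, 0 < w i) → ∀ Z : ℂ → ℂ,
      IsBarnesZeta r a w Z → ∀ (k : ℕ) (σ : ℝ), 1 ≤ k → (r : ℝ) - (weightDim r w : ℝ) / 2 ≤ σ →
        MomentBound Z k σ 1) := by
  have main : ∀ r d : ℕ, 2 ≤ d → d ≤ r → ∀ σ : ℝ, (r : ℝ) - d / 2 ≤ σ → σ < r - 1 / 2 →
      dimH (Exceptional r d σ 1) = ENNReal.ofReal (d + 1 - d / (2 * (r - σ))) := by
    intro r d hd hdr σ h1 h2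
    have hd2 : (2 : ℝ) ≤ d := by exact_mod_cast hd
    have hdr' : (d : ℝ) ≤ r := by exact_mod_cast hdr
    have h3 := dim_open (by omega) hdr (σ := σ) (β := 1) (by linarith) le_rfl (by linarith) (by linarith)
      (by linarith) Set.univ isOpen_univ ⟨fun _ => 1, trivial, fun _ => one_pos⟩
    rw [Set.inter_univ, mul_one] at h3
    exact h3
  refine ⟨exists_zeta, fun r w hr hw σ β hσ hβ => ?_, fun r d hd hdr σ β hσ hβ => ⟨fun h1 => ?_,
    fun h1 h2 h3 => ⟨fun U hU hne => dim_open hd hdr hσ hβ h1 h2 h3 U hU hne,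
      fun B hB U hU hne => dim_family hσ hβ h1 h2 h3 B hB U hU hne, ?_⟩, fun h1 B hB => ?_, fun h1 => ?_⟩,
    fun r d hd hdr σ h1 h2 => ⟨main r d hd hdr σ h1 h2, fun h3 => ?_⟩, fun hQ => ?_⟩
  · by_cases h : Pool.Agent.T6.H60.BD.PtB w σ β
    · exact Or.inr (holds_of_pt hr hw hσ hβ h)
    · exact Or.inl ((fail_iff hw hσ hβ).2 h)
  · rw [exceptional_eq hσ hβ]
    ext w
    constructor
    · rintro ⟨h2, h3, _⟩
      exact ⟨h2, h3⟩
    · rintro ⟨h2, h3⟩
      refine ⟨h2, h3, Pool.Agent.KS6_51.BW.XP_all hd (by linarith) ?_ h1 h3⟩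
      have hd1 : (1 : ℝ) ≤ d := by exact_mod_cast hd
      nlinarith
  · rw [exceptional_eq hσ hβ]
    exact Pool.Agent.KS6_51.BW.XP_null (by linarith) h3 h1 h2
  · rw [exceptional_eq hσ hβ]
    exact Pool.Agent.KS6_51.BW.XP_residual (by linarith) h1 B hB
  · rw [exceptional_eq hσ hβ]
    exact Pool.Agent.KS6_51.BW.XP_empty (by linarith) h1
  · rw [main r d hd hdr σ h1 h2, h3]
    have hd2 : (2 : ℝ) ≤ d := by exact_mod_cast hd
    have e : (d : ℝ) + 1 - d / (2 * (r - (r - d / 2))) = d := by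
      have e1 : 2 * ((r : ℝ) - (r - d / 2)) = d := by ring
      rw [e1, div_self (by linarith)]
      ring
    rw [e, ENNReal.ofReal_natCast]
  · have h1 := main 2 2 le_rfl le_rfl 1 (by norm_num) (by norm_num)
    have h2 : (Exceptional 2 2 1 1).Nonempty := by
      by_contra hcon
      rw [Set.not_nonempty_iff_eq_empty] at hcon
      rw [hcon, dimH_empty] at h1
      have h3 : (0 : ℝ) < ((2 : ℕ) : ℝ) + 1 - ((2 : ℕ) : ℝ) / (2 * (((2 : ℕ) : ℝ) - 1)) := by norm_num
      exact (ENNReal.ofReal_pos.mpr h3).ne h1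
    obtain ⟨w, hw1, hw2, hw3⟩ := h2
    obtain ⟨Z, hZ⟩ := exists_zeta 2 1 w one_pos hw1
    refine hw3 1 Z one_pos hZ 1 le_rfl ?_
    have h4 := hQ 2 1 w (by norm_num) one_pos hw1 Z hZ 1 1 le_rfl (by rw [hw2]; norm_num)
    have e : 1 + ((1 : ℕ) : ℝ) * (1 - 1) = 1 := by norm_num
    rw [e]
    exact h4

end Pool.Agent.Results.MP_047497_nt.ExceptionalWeights
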